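import Pool.Agent.X163.Lim2

set_option autoImplicit false

/-!
# MP_eba1ef_gt: limits of Minkowski sums of planar convex sets

Zonoids are the limits of finite Minkowski sums of segments; for them the conjecture is known to be
true. Here it is proved, in all dimensions, for the limits of finite Minkowski sums of segments and
planar convex sets (lying in arbitrary planes): such a convex body in `ℝ^n` is covered by `2 ^ n`
translates of its interior. More generally, if the conjecture is true in all dimensions `d ≤ k`, then
it is true, in all dimensions `n`, for the limits of finite sums of compact convex sets of dimension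
at most `k`. So a counterexample of least dimension is not a limit of sums of convex sets of smaller
dimension.

The proof. Call a compact convex set `A` subordinate to the convex body `K` if all outer normals of
`K` at a point `x ∈ K` are outer normals of `A` at some common point `a ∈ A`. For instance, all
summands of `K` are subordinate to `K`, and all limits of sets subordinate to `K` are subordinate to
`K` (but they need not be summands: if `K` is smooth, then all compact convex sets are subordinate to
`K`).

1. `c(K) ≤ c(A) c(Q)` for every set `A` subordinate to `K`, where `Q` is the image of `K` under a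
   linear map with the kernel `span (A - A)`. For let `W` and `V` be sets of directions illuminating
   `A` (in its span) and `Q`. If the directions `v + R w` do not illuminate `K` for large `R`, one
   gets points `x_R ∈ K` and `a_R ∈ A` and outer normals `u_R` of `K` at `x_R` and of `A` at
   `a_R`, with `⟨u_R, v⟩ + R ⟨u_R, w⟩ ≥ 0`, where `w`, `v` illuminate the limits of `a_R` and of the
   image of `x_R` for suitable `R → ∞`. Then `w` illuminates `a_R`, so `⟨u_R, w⟩ ≤ 0` and
   `⟨u_R, v⟩ ≥ 0`. In the limit `⟨u, w⟩ ≥ 0`, so that the outer normal `u` of `A` is orthogonal to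
   `A`, and `⟨u, v⟩ ≥ 0`, a contradiction to the choice of `v`.
2. Let `K` be a limit of sums of compact convex sets of dimension at most `k`. After division by
   their diameters, the terms of such a sum lie in finitely many classes of sets which almost
   coincide. So there is a class such that the sum of its terms is not negligible and is almost
   homothetic to one of them, `C`. It follows that `C` is almost subordinate to `K`, and one gets a
   subordinate set `A` of a dimension between `1` and `k` in the limit. The image `Q` of `K` is again a
   limit of such sums, in a smaller dimension; now use induction.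
-/

namespace Pool.Agent.Results.MP_eba1ef_gt.LimitsOfPlanarSums

open scoped Pointwise
open Pool.Agent.W677.Summand

/-- The Euclidean space `ℝ^d`. -/
abbrev Eu (d : ℕ) : Type := EuclideanSpace ℝ (Fin d)

/-- `K` is a convex body: convex, compact, with nonempty interior. -/
def IsConvexBody {d : ℕ} (K : Set (Eu d)) : Prop :=
  Convex ℝ K ∧ IsCompact K ∧ (interior K).Nonempty

/-- `K` is covered by at most `N` translates of its interior. -/
def CoveredBy {d : ℕ} (K : Set (Eu d)) (N : ℕ) : Prop :=
  ∃ T : Finset (Eu d), T.card ≤ N ∧ K ⊆ ⋃ t ∈ T, (fun x => t + x) '' interior K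

/-- `A` is covered by at most `N` translates of its relative interior. -/
def RelCoveredBy {d : ℕ} (A : Set (Eu d)) (N : ℕ) : Prop :=
  ∃ T : Finset (Eu d), T.card ≤ N ∧ A ⊆ ⋃ t ∈ T, (fun x => t + x) '' intrinsicInterior ℝ A

/-- The dimension of (the affine hull of) `A`. -/
noncomputable def dim {d : ℕ} (A : Set (Eu d)) : ℕ := Module.finrank ℝ (vectorSpan ℝ A)

/-- `π` is linear and onto, and its kernel is the linear span of `A - A`. -/
def IsQuotientMap {d m : ℕ} (A : Set (Eu d)) (π : Eu d → Eu m) : Prop :=
  IsLinearMap ℝ π ∧ Function.Surjective π ∧ ∀ x, π x = 0 ↔ x ∈ vectorSpan ℝ A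

/-- `u` is an outer normal vector (or zero) of `K` at the point `x`. -/
def IsNormal {d : ℕ} (K : Set (Eu d)) (x u : Eu d) : Prop := ∀ y ∈ K, inner ℝ u y ≤ inner ℝ u x

/-- `A` is subordinate to `K`: for each point `x` of `K` there is a point `a` of `A` such that all
outer normals of `K` at `x` are outer normals of `A` at `a`. -/
def IsSubordinate {d : ℕ} (A K : Set (Eu d)) : Prop :=
  ∀ x ∈ K, ∃ a ∈ A, ∀ u, IsNormal K x u → IsNormal A a u

/-- `K` is a limit, in the Hausdorff distance, of finite Minkowski sums of nonempty compact convex
sets of dimension at most `k`. -/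
def IsLimitOfSums {d : ℕ} (k : ℕ) (K : Set (Eu d)) : Prop :=
  ∀ ε : ℝ, 0 < ε → ∃ (m : ℕ) (A : Fin m → Set (Eu d)),
    (∀ i, Convex ℝ (A i) ∧ IsCompact (A i) ∧ (A i).Nonempty ∧ dim (A i) ≤ k) ∧
    K ⊆ (∑ i, A i) + Metric.closedBall 0 ε ∧ (∑ i, A i) ⊆ K + Metric.closedBall 0 ε

/-- **Main theorem.**
1. If the compact convex set `A` is subordinate to the convex body `K` in `ℝ^n` and is covered by `N`
translates of its relative interior, and if the image `π K` of `K` under a linear map onto `ℝ^m` with
the kernel `span (A - A)` is covered by `M` translates of its interior, then `K` is covered by `N M`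
translates of its interior.
2. If in all dimensions `d ≤ k` every convex body is covered by `2 ^ d` translates of its interior,
then, in every dimension `n`, every convex body which is a limit of finite sums of compact convex
sets of dimension at most `k` is covered by `2 ^ n` translates of its interior.
3. Every convex body in `ℝ^n` which is a limit of finite sums of compact convex sets of dimension at
most two is covered by `2 ^ n` translates of its interior. -/
theorem result :
    (∀ (n m : ℕ) (K A : Set (Eu n)) (π : Eu n → Eu m) (N M : ℕ), IsConvexBody K → Convex ℝ A →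
      IsCompact A → IsSubordinate A K → IsQuotientMap A π → RelCoveredBy A N →
      CoveredBy (π '' K) M → CoveredBy K (N * M)) ∧
    (∀ k : ℕ, (∀ d ≤ k, ∀ K : Set (Eu d), IsConvexBody K → CoveredBy K (2 ^ d)) →
      ∀ (n : ℕ) (K : Set (Eu n)), IsConvexBody K → IsLimitOfSums k K → CoveredBy K (2 ^ n)) ∧
    (∀ (n : ℕ) (K : Set (Eu n)), IsConvexBody K → IsLimitOfSums 2 K → CoveredBy K (2 ^ n)) := by
  refine ⟨?_, fun k hk => Pool.Agent.X163.Lim.main k hk,
    Pool.Agent.X163.Lim.main 2 fun d hd L hL => body_le_two hd hL⟩
  intro n m K A π N M hK hA hAc hAK hπ hN hM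
  obtain ⟨x, hx⟩ := hK.2.2
  obtain ⟨a₀, ha₀, -⟩ := hAK x (interior_subset hx)
  obtain ⟨ι, hι⟩ := coords (vectorSpan ℝ A) (k := dim A) rfl
  obtain ⟨hlin, hsurj, hk⟩ := hπ
  exact Pool.Agent.X163.Lim.bound hι ha₀ hAc hK.1 hK.2.1 hK.2.2 hAK
    (LinearMap.toContinuousLinearMap (hlin.mk' π)) (Function.surjInv hsurj)
    (Function.surjInv_eq hsurj) (fun y hy => (hk y).1 hy) N M (cov_of_rel hι ha₀ hN) hM

end Pool.Agent.Results.MP_eba1ef_gt.LimitsOfPlanarSums
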