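import Pool.Agent.X163.Hull

set_option autoImplicit false

/-!
# MP_eba1ef_gt: convex hulls of low-dimensional sets, and of such sets and bodies with small normal cones

Let `c(A)` be the least number of translates of the relative interior of the compact convex set `A`
that cover `A`. It is at most `b(dim A)`, where `b(k) = 2 ^ k` for `k ≤ 2` and
`b(k) = 3 · 2^k · k · log (2 k² + 2 k + 1)` for `k ≥ 3` (`AllConvexBodies`). We prove, for a convex body
`K` in `ℝ^d` and compact convex subsets `A_1, …, A_m` of `K`: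

1. If `K = conv (A_1 ∪ … ∪ A_m)` then `c(K) ≤ c(A_1) + … + c(A_m)`. For polytopes and points `A_i` this is
   the number of vertices. So the conjecture is true for the convex hull of `2 ^ (d-1)` segments, or
   of `2 ^ (d-2)` planar convex sets, and `c(K) < 2 ^ d` for the convex hull of `m` convex sets of
   dimension `k` if `m b(k) < 2 ^ d`.
2. Suppose that all extreme points of `K` outside of the `A_i` have normal cones of dimension at most
   `k`. Then `c(K) ≤ ∑ b(dim A_i) + 1 + 4 d (d+1) log (20 d^6 + 1) ((2 - τ) / τ)^k (1 - τ)^(-d)` for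
   `0 < τ < 1`. If `d ≥ 1024`, `k ≤ d / 5` and `∑ b(dim A_i) ≤ (1 - 1/d) 2^d`, then `c(K) < 2 ^ d`. If
   `K` is centrally symmetric, it is enough that `k ≤ d / 2 - (2 d log d)^(1/2)` and
   `∑ b(dim A_i) ≤ (1 - 4/d) 2^d`.
3. The assumption of 2 holds for `K = conv (S ∪ A_1 ∪ … ∪ A_m)` if all extreme points of the body
   `S` have normal cones of dimension at most `k`; for instance for smooth bodies `S`, with `k = 1`.

This contains the theorem `SmallNormalCones` of the starting files as the case that the exceptional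
sets `A_i` are points. For example, if `S` is smooth, `d ≥ 1024`, and `A` and `B` are arbitrary
compact convex sets of dimensions at most `d - 2 log₂ d`, then `c (conv (S ∪ A ∪ B)) < 2^d`.

The proof. Let `p` be an interior point of `K`, `a` a point of `A = A_i` and `w` one of the `c(A)`
directions that illuminate `A` in its span. If `w` illuminates `x ∈ A`, then, as `x + r w` is at
some distance from the relative boundary of `A`, the set `A` contains the points `x + (r w + s (x - a))`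
for small `s`, hence `R w + (x - a)` points from `x` into `K` for large `R`, and so
`R w + (x - a) + (p - x) = R w + (p - a)` points into the interior of `K`. So all points of `A_i`, in
particular the extreme points of `K` in it, are illuminated by `c(A_i)` directions; and it is
enough to illuminate the extreme points.
-/

namespace Pool.Agent.Results.MP_eba1ef_gt.LowDimensionalExceptions

open Set
open scoped Pointwise
open Pool.Agent.W677.Summand

/-- The Euclidean space `ℝ^d`. -/
abbrev E (d : ℕ) : Type := EuclideanSpace ℝ (Fin d)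

/-- `K` is a convex body: convex, compact, with nonempty interior. -/
def IsConvexBody {d : ℕ} (K : Set (E d)) : Prop :=
  Convex ℝ K ∧ IsCompact K ∧ (interior K).Nonempty

/-- `K` is covered by at most `N` translates of its interior. -/
def CoveredBy {d : ℕ} (K : Set (E d)) (N : ℝ) : Prop :=
  ∃ T : Finset (E d), (T.card : ℝ) ≤ N ∧ K ⊆ ⋃ t ∈ T, (fun x => t + x) '' interior K

/-- `K` is covered by fewer than `2 ^ d` translates of its interior. -/
def Fewer {d : ℕ} (K : Set (E d)) : Prop :=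
  ∃ T : Finset (E d), T.card < 2 ^ d ∧ K ⊆ ⋃ t ∈ T, (fun x => t + x) '' interior K

/-- `A` is covered by at most `N` translates of its relative interior. -/
def RelCoveredBy {d : ℕ} (A : Set (E d)) (N : ℕ) : Prop :=
  ∃ T : Finset (E d), T.card ≤ N ∧ A ⊆ ⋃ t ∈ T, (fun x => t + x) '' intrinsicInterior ℝ A

/-- The dimension of (the affine hull of) `A`. -/
noncomputable def dim {d : ℕ} (A : Set (E d)) : ℕ := Module.finrank ℝ (vectorSpan ℝ A)

/-- `b(k) = 2 ^ k` for `k ≤ 2` and `b(k) = 3 · 2^k · k · log (2 k² + 2 k + 1)` for `k ≥ 3`. -/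
noncomputable def b (k : ℕ) : ℝ :=
  if k ≤ 2 then 2 ^ k else 3 * 2 ^ k * (k * Real.log (2 * k ^ 2 + 2 * k + 1))

/-- The normal cone of `K` at the point `x` has dimension at most `k`: all functionals attaining their
maximum over `K` at `x` vanish on a subspace of codimension at most `k`. -/
def NormalDim {d : ℕ} (K : Set (E d)) (k : ℕ) (x : E d) : Prop :=
  ∃ Λ : Submodule ℝ (E d), d ≤ Module.finrank ℝ Λ + k ∧
    ∀ f : E d →L[ℝ] ℝ, (∀ z ∈ K, f z ≤ f x) → ∀ v ∈ Λ, f v = 0

/-- `A 1, …, A m` are nonempty compact convex subsets of `K`. -/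
def SubsetsOf {d m : ℕ} (K : Set (E d)) (A : Fin m → Set (E d)) : Prop :=
  ∀ i, Convex ℝ (A i) ∧ IsCompact (A i) ∧ (A i).Nonempty ∧ A i ⊆ K

/-- All extreme points of `K` outside of the sets `A i` have normal cones of dimension at most `k`. -/
def SmallOutside {d m : ℕ} (K : Set (E d)) (A : Fin m → Set (E d)) (k : ℕ) : Prop :=
  ∀ x ∈ extremePoints ℝ K, (∀ i, x ∉ A i) → NormalDim K k x

/-- covering from the illumination of the extreme points -/
theorem cover {d m : ℕ} (hd : 1 ≤ d) {K : Set (E d)} (hK : IsConvexBody K) (U : Finset (E d))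
    (A : Fin m → Set (E d)) (V : Fin m → Finset (E d))
    (hV : ∀ i, ∀ x ∈ A i, ∃ v ∈ V i, ∃ t : ℝ, 0 < t ∧ x + t • v ∈ interior K)
    (h : ∀ x ∈ extremePoints ℝ K, (∀ i, x ∉ A i) → ∃ v ∈ U, ∃ t : ℝ, 0 < t ∧ x + t • v ∈ interior K) :
    CoveredBy K (∑ i, ((V i).card : ℝ) + U.card) := by
  classical
  set W : Finset (E d) := Finset.univ.biUnion V with hW
  have hill : ∀ x ∈ frontier K, ∃ u ∈ U ∪ W, ∃ t : ℝ, 0 < t ∧ x + t • u ∈ interior K := by
    intro x hx
    obtain ⟨v, hv, hdom⟩ := Pool.Agent.TH84.HC.extreme_dom hK.1 hK.2.1 hK.2.2 hx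
    by_cases hvA : ∀ i, v ∉ A i
    · obtain ⟨u, hu, hut⟩ := h v hv hvA
      exact ⟨u, Finset.mem_union_left _ hu, hdom _ hut⟩
    · push Not at hvA
      obtain ⟨i, hi⟩ := hvA
      obtain ⟨u, hu, hut⟩ := hV i v hi
      exact ⟨u, Finset.mem_union_right _ (Finset.mem_biUnion.2 ⟨i, Finset.mem_univ _, hu⟩),
        hdom _ hut⟩
  obtain ⟨a, ha⟩ := hK.2.2
  have hne : (U ∪ W).Nonempty := by
    have : (frontier K).Nonempty := by
      by_contra hcon
      rw [Set.not_nonempty_iff_eq_empty] at hcon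
      have h2 : IsClopen K := isClopen_iff_frontier_eq_empty.2 hcon
      have h3 : K = Set.univ := h2.eq_univ ⟨a, interior_subset ha⟩
      have h4 := hK.2.1
      rw [h3] at h4
      have h5 : Nontrivial (E d) := by
        refine ⟨⟨EuclideanSpace.single ⟨0, hd⟩ 1, 0, fun h6 => ?_⟩⟩
        have := congrArg (fun z : E d => z ⟨0, hd⟩) h6
        simp at this
      exact (noncompact_univ (E d)) h4
    obtain ⟨x, hx⟩ := this
    obtain ⟨u, hu, _⟩ := hill x hx
    exact ⟨u, hu⟩
  obtain ⟨T, hT, hcov⟩ := Pool.Agent.TH84.HC.cover_of_illum hK.1 hK.2.1 (U ∪ W) hne hill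
  refine ⟨T, hT.trans ?_, hcov⟩
  have h2 := Finset.card_union_le U W
  have h3 : W.card ≤ ∑ i, (V i).card := Finset.card_biUnion_le
  have h4 : ((U ∪ W).card : ℝ) ≤ U.card + (∑ i, (V i).card : ℕ) := by
    exact_mod_cast h2.trans (by omega)
  push_cast at h4
  linarith

/-- directions for a convex subset -/
theorem dirs {d : ℕ} {K A : Set (E d)} (hK : IsConvexBody K) (hA : Convex ℝ A)
    (hAc : IsCompact A) (hne : A.Nonempty) (hAK : A ⊆ K) :
    (∀ N : ℕ, RelCoveredBy A N → ∃ V : Finset (E d), V.card ≤ N ∧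
      ∀ x ∈ A, ∃ v ∈ V, ∃ t : ℝ, 0 < t ∧ x + t • v ∈ interior K) ∧
    ∃ V : Finset (E d), (V.card : ℝ) ≤ b (dim A) ∧
      ∀ x ∈ A, ∃ v ∈ V, ∃ t : ℝ, 0 < t ∧ x + t • v ∈ interior K := by
  obtain ⟨a₀, ha₀⟩ := hne
  obtain ⟨ι, hι⟩ := coords (vectorSpan ℝ A) (k := dim A) rfl
  have hL : Bdy (Lset ι A a₀) :=
    ⟨Lset_convex hA, Lset_compact (fun x hx => (hι x).1 hx) ha₀ hAc, Lset_int hι ha₀ hA⟩
  constructor
  · intro N hN
    exact Pool.Agent.X163.Hull.illum_sub hK.1 hK.2.2 hι ha₀ hA hAc hAK N (cov_of_rel hι ha₀ hN)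
  · obtain ⟨N, hN, hcov⟩ := Pool.Agent.X163.Hull.cov_bnd hL
    obtain ⟨V, hV, h⟩ := Pool.Agent.X163.Hull.illum_sub hK.1 hK.2.2 hι ha₀ hA hAc hAK N hcov
    exact ⟨V, le_trans (by exact_mod_cast hV) hN, h⟩

/-- the combination of the two bounds -/
theorem combined {d m k : ℕ} (hd : 1 ≤ d) {K : Set (E d)} (hK : IsConvexBody K)
    {A : Fin m → Set (E d)} (hA : SubsetsOf K A) (hout : SmallOutside K A k) {B : ℝ}
    (hB : ∃ U : Finset (E d), (U.card : ℝ) ≤ B ∧
      ∀ x ∈ K, NormalDim K k x → ∃ v ∈ U, ∃ t : ℝ, 0 < t ∧ x + t • v ∈ interior K) :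
    CoveredBy K (∑ i, b (dim (A i)) + B) := by
  obtain ⟨U, hU, h⟩ := hB
  choose V hV1 hV2 using fun i => (dirs hK (hA i).1 (hA i).2.1 (hA i).2.2.1 (hA i).2.2.2).2
  obtain ⟨T, hT, hcov⟩ := cover hd hK U A V hV2 fun x hx hxA => h x hx.1 (hout x hx hxA)
  refine ⟨T, hT.trans ?_, hcov⟩
  exact add_le_add (Finset.sum_le_sum fun i _ => hV1 i) hU

theorem fewer {d : ℕ} {x y : ℝ} {K : Set (E d)} (hxy : x < y) (h : CoveredBy K x)
    (hy : y ≤ 2 ^ d) : Fewer K := by
  obtain ⟨T, hT, hcov⟩ := h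
  refine ⟨T, ?_, hcov⟩
  have : (T.card : ℝ) < 2 ^ d := by linarith
  exact_mod_cast this

/-- **Main theorem.** -/
theorem result :
    -- 1. convex hulls of low-dimensional sets
    (∀ (d m : ℕ) (K : Set (E d)) (A : Fin m → Set (E d)) (N : Fin m → ℕ), 1 ≤ d → IsConvexBody K →
      SubsetsOf K A → K = convexHull ℝ (⋃ i, A i) →
      ((∀ i, RelCoveredBy (A i) (N i)) → CoveredBy K (∑ i, (N i : ℝ))) ∧
      CoveredBy K (∑ i, b (dim (A i)))) ∧
    -- 2. small normal cones outside of low-dimensional sets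
    (∀ (d m k : ℕ) (K : Set (E d)) (A : Fin m → Set (E d)), 1 ≤ d → IsConvexBody K →
      SubsetsOf K A → SmallOutside K A k →
      (∀ τ : ℝ, 0 < τ → τ < 1 → CoveredBy K (∑ i, b (dim (A i)) + (1 + 4 * (d * (d + 1)) *
        Real.log (20 * d ^ 6 + 1) * (((2 - τ) / τ) ^ k / (1 - τ) ^ d)))) ∧
      (1024 ≤ d → 5 * k ≤ d → ∑ i, b (dim (A i)) ≤ (1 - 1 / (d : ℝ)) * 2 ^ d → Fewer K) ∧
      ((∀ x ∈ K, -x ∈ K) → 2 ≤ d → 2 * k ≤ d → 8 * (d * Real.log d) ≤ (d - 2 * k : ℝ) ^ 2 →
        ∑ i, b (dim (A i)) ≤ (1 - 4 / (d : ℝ)) * 2 ^ d → Fewer K)) ∧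
    -- 3. the convex hull of a body with small normal cones and low-dimensional sets
    (∀ (d m k : ℕ) (K S : Set (E d)) (A : Fin m → Set (E d)),
      (∀ x ∈ extremePoints ℝ S, NormalDim S k x) → K = convexHull ℝ (S ∪ ⋃ i, A i) →
      SmallOutside K A k) := by
  refine ⟨?_, ?_, ?_⟩
  · intro d m K A N hd hK hA hhull
    have hext : ∀ x ∈ extremePoints ℝ K, ¬ ∀ i, x ∉ A i := by
      intro x hx hcon
      rw [hhull] at hx
      obtain ⟨i, hi⟩ := mem_iUnion.1 (extremePoints_convexHull_subset hx)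
      exact hcon i hi
    constructor
    · intro hN
      choose V hV1 hV2 using fun i =>
        (dirs hK (hA i).1 (hA i).2.1 (hA i).2.2.1 (hA i).2.2.2).1 (N i) (hN i)
      obtain ⟨T, hT, hcov⟩ := cover hd hK ∅ A V hV2 fun x hx hxA => absurd hxA (hext x hx)
      refine ⟨T, hT.trans ?_, hcov⟩
      rw [Finset.card_empty, Nat.cast_zero, add_zero]
      exact Finset.sum_le_sum fun i _ => by exact_mod_cast hV1 i
    · choose V hV1 hV2 using fun i => (dirs hK (hA i).1 (hA i).2.1 (hA i).2.2.1 (hA i).2.2.2).2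
      obtain ⟨T, hT, hcov⟩ := cover hd hK ∅ A V hV2 fun x hx hxA => absurd hxA (hext x hx)
      refine ⟨T, hT.trans ?_, hcov⟩
      rw [Finset.card_empty, Nat.cast_zero, add_zero]
      exact Finset.sum_le_sum fun i _ => hV1 i
  · intro d m k K A hd hK hA hout
    refine ⟨fun τ h0 h1 => combined hd hK hA hout
      (Pool.Agent.TH84.NC.illum_pairs d k hd K hK τ h0 h1), fun hd' hk hsum => ?_,
      fun hsym hd' hk h8 hsum => ?_⟩
    · have hc := combined hd hK hA hout
        (Pool.Agent.TH84.NC.illum_pairs d k hd K hK (9 / 50) (by norm_num) (by norm_num))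
      have hnum := Pool.Agent.TH84.NC.pairs_num hd' hk
      refine fewer ?_ hc le_rfl
      linarith
    · obtain ⟨hlt, hnum⟩ := Pool.Agent.TH84.NC.strict_num hd' hk h8
      obtain ⟨θ, h0, h1, hθ⟩ := Pool.Agent.TH84.NC.rate_exp (by omega : 1 ≤ d) hlt
      have hc := combined hd hK hA hout (Pool.Agent.TH84.NC.illum_sym d k hd K hK hsym θ h0 h1)
      refine fewer ?_ hc le_rfl
      have hlogn : 0 ≤ Real.log (10 * (d:ℝ) ^ 5 + 1) := by
        apply Real.log_nonneg
        have : 0 ≤ 10 * (d:ℝ) ^ 5 := by positivity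
        linarith
      have h2 := mul_le_mul_of_nonneg_left hθ
        (show 0 ≤ (d * ((d:ℝ) + 1)) * Real.log (10 * d ^ 5 + 1) by positivity)
      linarith
  · intro d m k K S A hS hhull x hx hxA
    have hxK := hx
    rw [hhull] at hx
    have hSK : S ⊆ K := by
      rw [hhull]
      exact subset_union_left.trans (subset_convexHull ℝ _)
    have hxS : x ∈ S := by
      rcases extremePoints_convexHull_subset hx with h | h
      · exact h
      · obtain ⟨i, hi⟩ := mem_iUnion.1 h
        exact absurd hi (hxA i)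
    have hxe : x ∈ extremePoints ℝ S :=
      inter_extremePoints_subset_extremePoints_of_subset hSK ⟨hxS, hxK⟩
    obtain ⟨Λ, h1, h2⟩ := hS x hxe
    exact ⟨Λ, h1, fun f hf => h2 f fun z hz => hf z (hSK hz)⟩

end Pool.Agent.Results.MP_eba1ef_gt.LowDimensionalExceptions
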