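import Mathlib
import Pool.Agent.Results.MP_eba1ef_gt.AsymmetricThinSlabs
import Pool.Agent.Results.MP_eba1ef_gt.AllConvexBodies
import Pool.Agent.X163.UConv
import Pool.Agent.X163.UConv2

set_option autoImplicit false

/-!
# MP_eba1ef_gt: uniformly convex bodies, and intersections of translates of them

No body is assumed to be symmetric here. The modulus of convexity of a convex body `K` is measured
by its difference body `K - K`: it is at least `δ` at the scale `ε` if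
`(x + y) / 2 + δ (K - K) ⊆ K` for all `x, y ∈ K` with `x - y ∉ ε (K - K)`. We prove:

1. `c(K) ≤ 1 + 12 d log(2d²+2d+1) 2^d ((24/δ₁) (1-δ₂/2)^d)^(1/60)` if the modulus is at least `δ₁`
   at the scale `1/8` and at least `δ₂` at the scale `δ₁/32`.
2. So for every function `δ(ε) > 0` there is `q < 2` such that in all sufficiently high dimensions
   every convex body with modulus of convexity at least `δ(ε)` at all scales `ε` has
   `c(K) ≤ q^d`.
3. More generally, for every function `δ(ε) > 0` and `s > 0` there is `q < 2` such that in all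
   sufficiently high dimensions `c(K) ≤ q^d` for every intersection `K` of translates of a convex
   body `L` with modulus of convexity at least `δ(ε)`, if `K` contains a translate of `s L`.
4. If `K` is an intersection of Euclidean unit balls and contains a ball of radius `s`, then
   `c(K) ≤ 1 + 12 d log(2d²+2d+1) 2^d ((6144/s²) (1-s⁶/2²⁹)^d)^(1/60)`.

The proof: (a) The centroid `g` of `K` is deep inside of `K`, `g + (δ₁/2) (K - K) ⊆ K`: by the
Rogers-Shephard inequality most points `y` of `K` satisfy `g - y ∉ (K - K) / 8`, and one averages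
the inclusion `(g + y) / 2 + δ₁ (K - K) ⊆ K` over these `y`. In particular `K` is not very asymmetric
about `g`. (b) By the Brunn-Minkowski inequality, of the two parts of `K` in which a functional `φ`
is at least `1/4` and at most `1/8`, one has at most the fraction `2 (1-δ₂/2)^d` of the volume, since
the midpoints are in `(1-δ₂/2) K`; it is the first one, as the integral of `φ` over `K` is zero for
the origin `g`. (c) So all supporting slabs are thin and the theorem `AsymmetricThinSlabs` applies.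
-/

namespace Pool.Agent.Results.MP_eba1ef_gt.UniformlyConvexBodies

open MeasureTheory Set
open scoped Pointwise

/-- `K` is a convex body. -/
def IsBody {d : ℕ} (K : Set (EuclideanSpace ℝ (Fin d))) : Prop :=
  Convex ℝ K ∧ IsCompact K ∧ (interior K).Nonempty

/-- The modulus of convexity of `K` at the scale `ε` is at least `δ`, both measured by the
difference body `K - K`. -/
def ConvexityAt {d : ℕ} (K : Set (EuclideanSpace ℝ (Fin d))) (ε δ : ℝ) : Prop :=
  ∀ x ∈ K, ∀ y ∈ K, x - y ∉ ε • (K - K) → ∀ w ∈ K - K, (1 / 2 : ℝ) • (x + y) + δ • w ∈ K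

/-- `K` is covered by at most `N` translates of its interior. -/
def CoveredBy {d : ℕ} (K : Set (EuclideanSpace ℝ (Fin d))) (N : ℝ) : Prop :=
  ∃ T : Finset (EuclideanSpace ℝ (Fin d)),
    K ⊆ ⋃ t ∈ T, (fun x => t + x) '' interior K ∧ (T.card : ℝ) ≤ N

/-- Bodies with the centroid in the origin. -/
theorem centred (d : ℕ) (hd : 2 ≤ d) (K : Set (EuclideanSpace ℝ (Fin d))) (a ε δ : ℝ)
    (hK : Convex ℝ K) (hKc : IsCompact K) (hK0 : 0 ∈ interior K) (hcen : ∫ x in K, x = 0)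
    (hasym : ∀ x ∈ K, -x ∈ a • K) (ha : 0 ≤ a) (hε : 0 ≤ ε) (hδ1 : δ < 1)
    (hεa : 8 * ε * (1 + a) ≤ 1) (hUC : Pool.Agent.X163.UConv.UC K ε δ) :
    CoveredBy K (1 + 12 * d * Real.log (2 * d ^ 2 + 2 * d + 1) * 2 ^ d
        * (8 * (1 + a) * (1 - δ) ^ d) ^ (1 / 60 : ℝ)) := by
  have hη : 0 < (1 - δ) ^ d := pow_pos (by linarith) _
  have hlog0 : 0 ≤ Real.log (2 * (d:ℝ) ^ 2 + 2 * d + 1) := Real.log_nonneg (by
    have : (0:ℝ) ≤ d := by positivity
    nlinarith)
  by_cases hδ : 8 * (1 + a) * (1 - δ) ^ d ≤ 1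
  · have hthin : AsymmetricThinSlabs.thinPart K (4 * (1 - δ) ^ d) = K := by
      ext z
      refine ⟨fun h => h.1, fun hz => ⟨hz, ?_⟩⟩
      obtain ⟨φ, h1, h2⟩ := Pool.Agent.X163.UConv.support hK hKc hK0 z
      exact ⟨φ, ⟨h1, Pool.Agent.X163.UConv.thin hKc hK0 hε hδ1.le ha hεa hδ hUC
        hasym hcen φ h1⟩, h2⟩
    obtain ⟨T, h1, h2, -⟩ := (AsymmetricThinSlabs.result d hd K hK hKc hK0).1
      (4 * (1 - δ) ^ d) 1 (by positivity) one_pos le_rfl (by rw [hthin, one_mul])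
    refine ⟨T, h1, h2.trans ?_⟩
    have : (4 * (1 - δ) ^ d) ^ (1 / 60 : ℝ) ≤ (8 * (1 + a) * (1 - δ) ^ d) ^ (1 / 60 : ℝ) := by
      apply Real.rpow_le_rpow (by positivity) _ (by norm_num)
      nlinarith
    gcongr
  · push Not at hδ
    obtain ⟨T, h1, h2⟩ := AllConvexBodies.result d hd K hK hKc ⟨0, hK0⟩
    refine ⟨T, h1, h2.trans ?_⟩
    have h3 : 1 ≤ (8 * (1 + a) * (1 - δ) ^ d) ^ (1 / 60 : ℝ) :=
      Real.one_le_rpow hδ.le (by norm_num)
    have h4 : 0 ≤ d * Real.log (2 * (d:ℝ) ^ 2 + 2 * d + 1) * 2 ^ d := by positivity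
    nlinarith

/-- A translation. -/
theorem translate {d : ℕ} {K : Set (EuclideanSpace ℝ (Fin d))} (g : EuclideanSpace ℝ (Fin d))
    {N : ℝ} (h : CoveredBy ((fun x => x + g) ⁻¹' K) N) : CoveredBy K N := by
  obtain ⟨T, h1, h2⟩ := h
  refine ⟨T, fun x hx => ?_, h2⟩
  have h3 : x - g ∈ (fun x => x + g) ⁻¹' K := by
    show x - g + g ∈ K
    rwa [sub_add_cancel]
  have h4 := h1 h3
  rw [mem_iUnion₂] at h4
  obtain ⟨t, ht, y, hy, hy'⟩ := h4
  have e : interior ((fun x => x + g) ⁻¹' K) = (fun x => x + g) ⁻¹' interior K :=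
    ((Homeomorph.addRight g).preimage_interior K).symm
  rw [e] at hy
  rw [mem_iUnion₂]
  refine ⟨t, ht, y + g, hy, ?_⟩
  show t + (y + g) = x
  have hy'' : t + y = x - g := hy'
  rw [← add_assoc, hy'', sub_add_cancel]

/-- The general bound. -/
theorem general (d : ℕ) (hd : 2 ≤ d) (K : Set (EuclideanSpace ℝ (Fin d))) (hK : IsBody K)
    (δ₁ δ₂ : ℝ) (h1 : 0 < δ₁) (h1' : δ₁ ≤ 1) (h2 : 0 < δ₂) (h2' : δ₂ ≤ 1)
    (hc1 : ConvexityAt K (1 / 8) δ₁) (hc2 : ConvexityAt K (δ₁ / 32) δ₂) :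
    CoveredBy K (1 + 12 * d * Real.log (2 * d ^ 2 + 2 * d + 1) * 2 ^ d
        * (24 / δ₁ * (1 - δ₂ / 2) ^ d) ^ (1 / 60 : ℝ)) := by
  obtain ⟨hconv, hcomp, hint⟩ := hK
  have hV0 : volume K ≠ 0 :=
    (lt_of_lt_of_le (isOpen_interior.measure_pos volume hint) (measure_mono interior_subset)).ne'
  have hVt : volume K ≠ ⊤ := hcomp.measure_lt_top.ne
  set g : EuclideanSpace ℝ (Fin d) := ⨍ x in K, x with hg
  set K' : Set (EuclideanSpace ℝ (Fin d)) := (fun x => x + g) ⁻¹' K with hK'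
  have hmem : ∀ x, x ∈ K' ↔ x + g ∈ K := fun x => Iff.rfl
  have hconv' : Convex ℝ K' := by
    intro x hx y hy a b ha hb hab
    have := hconv hx hy ha hb hab
    rw [hmem]
    have e : a • x + b • y + g = a • (x + g) + b • (y + g) := by
      rw [smul_add, smul_add]
      have : g = a • g + b • g := by rw [← add_smul, hab, one_smul]
      nth_rewrite 1 [this]
      abel
    rw [e]
    exact this
  have hcomp' : IsCompact K' := (Homeomorph.addRight g).isCompact_preimage.2 hcomp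
  have hint' : (interior K').Nonempty := by
    have e : interior K' = (fun x => x + g) ⁻¹' interior K :=
      ((Homeomorph.addRight g).preimage_interior K).symm
    rw [e]
    obtain ⟨z, hz⟩ := hint
    exact ⟨z - g, by
      show z - g + g ∈ interior K
      rwa [sub_add_cancel]⟩
  have hdiff : K' - K' = K - K := by
    ext w
    constructor
    · rintro ⟨x, hx, y, hy, rfl⟩
      exact ⟨x + g, hx, y + g, hy, by simp⟩
    · rintro ⟨x, hx, y, hy, rfl⟩
      exact ⟨x - g, by rw [hmem, sub_add_cancel]; exact hx, y - g, by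
        rw [hmem, sub_add_cancel]; exact hy, by simp⟩
  have hcen : ∫ x in K', x = 0 := by
    have hKm : MeasurableSet K := hcomp.isClosed.measurableSet
    have e1 : ∫ x in K', x = ∫ x in K', (fun y => y - g) (x + g) := by simp
    have e2 : ∫ x in K', (fun y => y - g) (x + g) = ∫ y in K, (y - g) :=
      (measurePreserving_add_right volume g).setIntegral_preimage_emb
        (Homeomorph.addRight g).measurableEmbedding (fun y => y - g) K
    rw [e1, e2, integral_sub]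
    · rw [setIntegral_const, hg, setAverage_eq, smul_smul]
      rw [mul_inv_cancel₀, one_smul, sub_self]
      exact (ENNReal.toReal_pos hV0 hVt).ne'
    · exact continuous_id.continuousOn.integrableOn_compact hcomp
    · exact integrableOn_const hVt
  have hca : ∀ ε δ : ℝ, ConvexityAt K ε δ → ConvexityAt K' ε δ := by
    intro ε δ h x hx y hy hxy w hw
    rw [hdiff] at hxy hw
    have := h (x + g) hx (y + g) hy (by simpa using hxy) w hw
    rw [hmem]
    convert this using 1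
    have : g = (1 / 2 : ℝ) • g + (1 / 2 : ℝ) • g := by
      rw [← add_smul]; norm_num
    nth_rewrite 1 [this]
    simp only [smul_add]
    abel
  have hdeep := Pool.Agent.X163.UConv2.deep (by omega) hconv' hcomp' hint'
    (by norm_num : (0:ℝ) ≤ 1 / 8) le_rfl h1.le (hca _ _ hc1) hcen
  have h0K : (0 : EuclideanSpace ℝ (Fin d)) ∈ K' := by
    obtain ⟨z, hz⟩ := hint'
    have := hdeep 0 ⟨z, interior_subset hz, z, interior_subset hz, sub_self z⟩
    rwa [smul_zero] at this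
  have h0 : (0 : EuclideanSpace ℝ (Fin d)) ∈ interior K' := by
    obtain ⟨z, hz⟩ := hint'
    rw [mem_interior_iff_mem_nhds] at hz ⊢
    have h3 : (δ₁ / 2) • (K' - K') ⊆ K' := by
      rintro _ ⟨w, hw, rfl⟩
      exact hdeep w hw
    refine Filter.mem_of_superset ?_ h3
    rw [set_smul_mem_nhds_zero_iff (by positivity)]
    have h4 : (fun x => x + z) ⁻¹' K' ∈ nhds (0 : EuclideanSpace ℝ (Fin d)) := by
      apply (continuous_add_const z).continuousAt.preimage_mem_nhds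
      rwa [zero_add]
    refine Filter.mem_of_superset h4 fun x hx => ?_
    exact ⟨x + z, hx, z, mem_of_mem_nhds hz, by simp⟩
  have hasym : ∀ x ∈ K', -x ∈ (2 / δ₁) • K' := by
    intro x hx
    refine ⟨(δ₁ / 2) • (-x), hdeep _ ⟨0, h0K, x, hx, by simp⟩, ?_⟩
    show (2 / δ₁) • ((δ₁ / 2) • (-x)) = -x
    rw [smul_smul, show 2 / δ₁ * (δ₁ / 2) = 1 by field_simp, one_smul]
  have hUC : Pool.Agent.X163.UConv.UC K' (δ₁ / 32) (δ₂ / 2) := by
    intro x hx y hy hxy
    set m : EuclideanSpace ℝ (Fin d) := (1 / 2 : ℝ) • (x + y) with hm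
    have hne : 1 - δ₂ / 2 ≠ 0 := by linarith
    have hmK : m ∈ K' := by
      have := hconv' hx hy (show (0:ℝ) ≤ 1 / 2 by norm_num) (show (0:ℝ) ≤ 1 / 2 by norm_num)
        (by norm_num)
      rwa [← smul_add] at this
    have h3 : m + δ₂ • m ∈ K' := hca _ _ hc2 x hx y hy hxy m ⟨m, hmK, 0, h0K, by simp⟩
    set t : ℝ := δ₂ / 2 / (1 - δ₂ / 2) / δ₂ with ht
    have ht0 : 0 ≤ t := by
      rw [ht]
      exact div_nonneg (div_nonneg (by linarith) (by linarith)) h2.le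
    have ht1 : t ≤ 1 := by
      rw [ht, div_div, div_le_one (mul_pos (by linarith) h2)]
      nlinarith
    have h4 := hconv' hmK h3 (show 0 ≤ 1 - t by linarith) ht0 (by ring)
    refine ⟨_, h4, ?_⟩
    show (1 - δ₂ / 2) • ((1 - t) • m + t • (m + δ₂ • m)) = m
    have e : (1 - t) • m + t • (m + δ₂ • m) = (1 + t * δ₂) • m := by
      clear_value m
      module
    have e2 : t * δ₂ = δ₂ / 2 / (1 - δ₂ / 2) := by
      rw [ht, div_mul_cancel₀ _ h2.ne']
    rw [e, smul_smul, e2, mul_add, mul_one, mul_div_cancel₀ _ hne, sub_add_cancel, one_smul]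
  obtain ⟨T, h3, h4⟩ := centred d hd K' (2 / δ₁) (δ₁ / 32) (δ₂ / 2) hconv' hcomp' h0 hcen hasym
    (by positivity) (by positivity) (by linarith) (by
      have : 8 * (δ₁ / 32) * (1 + 2 / δ₁) = (δ₁ + 2) / 4 := by
        field_simp
        ring
      rw [this]
      linarith) hUC
  refine translate g ⟨T, h3, h4.trans ?_⟩
  have hlog0 : 0 ≤ Real.log (2 * (d:ℝ) ^ 2 + 2 * d + 1) := Real.log_nonneg (by
    have : (0:ℝ) ≤ d := by positivity
    nlinarith)
  have hp : (0:ℝ) ≤ (1 - δ₂ / 2) ^ d := pow_nonneg (by linarith) _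
  have h5 : 8 * (1 + 2 / δ₁) ≤ 24 / δ₁ := by
    rw [le_div_iff₀ h1]
    have : 8 * (1 + 2 / δ₁) * δ₁ = 8 * (δ₁ + 2) := by
      field_simp
    rw [this]
    linarith
  have h6 : (8 * (1 + 2 / δ₁) * (1 - δ₂ / 2) ^ d) ^ (1 / 60 : ℝ) ≤
      (24 / δ₁ * (1 - δ₂ / 2) ^ d) ^ (1 / 60 : ℝ) := by
    apply Real.rpow_le_rpow (by positivity) _ (by norm_num)
    exact mul_le_mul_of_nonneg_right h5 hp
  gcongr

/-- monotonicity of the modulus -/
theorem ConvexityAt.mono {d : ℕ} {K : Set (EuclideanSpace ℝ (Fin d))} (hK : Convex ℝ K)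
    {ε δ δ' : ℝ} (h : ConvexityAt K ε δ) (hδ' : 0 ≤ δ') (hδ : δ' ≤ δ) : ConvexityAt K ε δ' := by
  rcases hδ'.eq_or_lt with h0 | h0
  · subst h0
    intro x hx y hy _ w _
    have := hK hx hy (show (0:ℝ) ≤ 1 / 2 by norm_num) (show (0:ℝ) ≤ 1 / 2 by norm_num)
      (by norm_num)
    rw [zero_smul, add_zero, smul_add]
    exact this
  · intro x hx y hy hxy w hw
    have hmK : (1 / 2 : ℝ) • (x + y) ∈ K := by
      have := hK hx hy (show (0:ℝ) ≤ 1 / 2 by norm_num) (show (0:ℝ) ≤ 1 / 2 by norm_num)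
        (by norm_num)
      rwa [← smul_add] at this
    have h1 := h x hx y hy hxy w hw
    have hδ0 : 0 < δ := lt_of_lt_of_le h0 hδ
    have h2 := hK hmK h1 (show 0 ≤ 1 - δ' / δ by
      rw [sub_nonneg, div_le_one hδ0]; exact hδ) (show 0 ≤ δ' / δ by positivity) (by ring)
    convert h2 using 1
    have e : δ' • w = (δ' / δ) • δ • w := by
      rw [smul_smul, div_mul_cancel₀ _ hδ0.ne']
    rw [e]
    module

/-- the numerical factor is exponentially small -/
theorem num (δ : ℝ) (hδ0 : 0 < δ) (hδ1 : δ ≤ 1) (A : ℝ) (hA : 0 ≤ A) :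
    ∃ q : ℝ, q < 2 ∧ ∃ d₀ : ℕ, ∀ d : ℕ, d₀ ≤ d → 2 ≤ d ∧
      1 + 12 * d * Real.log (2 * d ^ 2 + 2 * d + 1) * 2 ^ d * (A * (1 - δ) ^ d) ^ (1 / 60 : ℝ)
        ≤ q ^ d := by
  set r : ℝ := (1 - δ) ^ (1 / 60 : ℝ) with hr
  have hr0 : 0 ≤ r := Real.rpow_nonneg (by linarith) _
  have hr1 : r < 1 := Real.rpow_lt_one (by linarith) (by linarith) (by norm_num)
  set A' : ℝ := A ^ (1 / 60 : ℝ) with hA'
  have hA'0 : 0 ≤ A' := Real.rpow_nonneg hA _
  set q : ℝ := (3 + r) / 2 with hq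
  have hq1 : 1 < q := by rw [hq]; linarith
  have hq0 : 0 < q := by linarith
  have h1 := tendsto_pow_const_mul_const_pow_of_lt_one 3 (r := 2 * r / q) (by positivity)
    (by rw [div_lt_one hq0, hq]; linarith)
  have h2 := tendsto_pow_atTop_nhds_zero_of_lt_one (r := 1 / q) (by positivity)
    (by rw [div_lt_one hq0]; exact hq1)
  have h3 := (h1.const_mul (60 * A')).eventually_lt_const
    (show (60 * A') * (0:ℝ) < 1 / 2 by simp)
  have h4 := h2.eventually_lt_const (show (0:ℝ) < 1 / 2 by norm_num)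
  obtain ⟨N, hN⟩ := Filter.eventually_atTop.1 ((h3.and h4).and (Filter.eventually_ge_atTop 2))
  refine ⟨q, by rw [hq]; linarith, N, fun d hd => ?_⟩
  obtain ⟨⟨h5, h6⟩, h7⟩ := hN d hd
  refine ⟨h7, ?_⟩
  have hd1 : (1:ℝ) ≤ d := by exact_mod_cast (by omega : 1 ≤ d)
  have hlog : Real.log (2 * (d:ℝ) ^ 2 + 2 * d + 1) ≤ 5 * d ^ 2 := by
    refine (Real.log_le_sub_one_of_pos (by positivity)).trans ?_
    nlinarith
  have hpow : (A * (1 - δ) ^ d) ^ (1 / 60 : ℝ) = A' * r ^ d := by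
    rw [Real.mul_rpow hA (pow_nonneg (by linarith) _)]
    congr 1
    rw [hr, ← Real.rpow_natCast (1 - δ) d, ← Real.rpow_mul (by linarith),
      ← Real.rpow_natCast ((1 - δ) ^ (1 / 60 : ℝ)) d, ← Real.rpow_mul (by linarith)]
    ring_nf
  have hqd : 0 < q ^ d := pow_pos hq0 _
  have e1 : (2 * r / q) ^ d = 2 ^ d * r ^ d / q ^ d := by
    rw [div_pow, mul_pow]
  have e2 : (1 / q) ^ d = 1 / q ^ d := by rw [div_pow, one_pow]
  rw [e1] at h5
  rw [e2, div_lt_iff₀ hqd] at h6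
  have h8 : 60 * A' * (d ^ 3 * (2 ^ d * r ^ d)) ≤ 1 / 2 * q ^ d := by
    have : 60 * A' * (d ^ 3 * (2 ^ d * r ^ d / q ^ d)) = 60 * A' * (d ^ 3 * (2 ^ d * r ^ d)) / q ^ d := by
      ring
    rw [this, div_lt_iff₀ hqd] at h5
    exact h5.le
  rw [hpow]
  calc 1 + 12 * d * Real.log (2 * d ^ 2 + 2 * d + 1) * 2 ^ d * (A' * r ^ d)
      ≤ 1 + 12 * d * (5 * d ^ 2) * 2 ^ d * (A' * r ^ d) := by
        gcongr
    _ = 1 + 60 * A' * (d ^ 3 * (2 ^ d * r ^ d)) := by ring
    _ ≤ q ^ d := by linarith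

/-- Bodies with a given modulus. -/
theorem modulus (δ : ℝ → ℝ) (hδ : ∀ ε, 0 < ε → 0 < δ ε) :
    ∃ q : ℝ, q < 2 ∧ ∃ d₀ : ℕ, ∀ d : ℕ, d₀ ≤ d → ∀ K : Set (EuclideanSpace ℝ (Fin d)),
      IsBody K → (∀ ε, 0 < ε → ConvexityAt K ε (δ ε)) → CoveredBy K (q ^ d) := by
  set δ₁ := min (δ (1 / 8)) 1 with hδ₁
  have h1 : 0 < δ₁ := lt_min (hδ _ (by norm_num)) one_pos
  have h1' : δ₁ ≤ 1 := min_le_right _ _
  set δ₂ := min (δ (δ₁ / 32)) 1 with hδ₂
  have h2 : 0 < δ₂ := lt_min (hδ _ (by positivity)) one_pos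
  have h2' : δ₂ ≤ 1 := min_le_right _ _
  obtain ⟨q, hq, d₀, h⟩ := num (δ₂ / 2) (by positivity) (by linarith) (24 / δ₁) (by positivity)
  refine ⟨q, hq, d₀, fun d hd K hK hc => ?_⟩
  obtain ⟨h3, h4⟩ := h d hd
  obtain ⟨T, h5, h6⟩ := general d h3 K hK δ₁ δ₂ h1 h1' h2 h2'
    ((hc _ (by norm_num)).mono hK.1 h1.le (min_le_left _ _))
    ((hc _ (by positivity)).mono hK.1 h2.le (min_le_left _ _))
  exact ⟨T, h5, h6.trans h4⟩

/-- Intersections of translates of a body. -/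
theorem inter_body {d : ℕ} {L K : Set (EuclideanSpace ℝ (Fin d))} (hL : IsBody L)
    {C : Set (EuclideanSpace ℝ (Fin d))} (hC : C.Nonempty) (hK : K = ⋂ c ∈ C, c +ᵥ L) {s : ℝ}
    (hs : 0 < s) {z : EuclideanSpace ℝ (Fin d)} (hz : z +ᵥ s • L ⊆ K) :
    IsBody K ∧ ∀ ε δ : ℝ, ConvexityAt L (ε * s) δ → ConvexityAt K ε δ := by
  obtain ⟨hconv, hcomp, hint⟩ := hL
  have hmem : ∀ x, x ∈ K ↔ ∀ c ∈ C, x - c ∈ L := by
    intro x
    rw [hK]
    simp only [mem_iInter]
    refine forall₂_congr fun c _ => ?_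
    rw [Set.mem_vadd_set_iff_neg_vadd_mem]
    simp [sub_eq_neg_add]
  refine ⟨⟨?_, ?_, ?_⟩, ?_⟩
  · rw [hK]
    exact convex_iInter₂ fun c _ => hconv.vadd c
  · obtain ⟨c₀, hc₀⟩ := hC
    have hcl : IsClosed K := by
      rw [hK]
      exact isClosed_biInter fun c _ => (hcomp.vadd c).isClosed
    refine (hcomp.vadd c₀).of_isClosed_subset hcl ?_
    rw [hK]
    exact biInter_subset_of_mem hc₀
  · refine Set.Nonempty.mono (interior_mono hz) ?_
    have : interior (z +ᵥ s • L) = z +ᵥ s • interior L := by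
      rw [interior_vadd, interior_smul₀ hs.ne']
    rw [this]
    exact (hint.smul_set).vadd_set
  · intro ε δ h x hx y hy hxy w hw
    rw [hmem]
    intro c hc
    have hKL : K - K ⊆ L - L := by
      rintro _ ⟨p, hp, q, hq, rfl⟩
      exact ⟨p - c, (hmem p).1 hp c hc, q - c, (hmem q).1 hq c hc, by simp⟩
    have hLK : (ε * s) • (L - L) ⊆ ε • (K - K) := by
      rintro _ ⟨_, ⟨p, hp, q, hq, rfl⟩, rfl⟩
      refine ⟨s • (p - q), ⟨z + s • p, hz ⟨s • p, ⟨p, hp, rfl⟩, rfl⟩, z + s • q,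
        hz ⟨s • q, ⟨q, hq, rfl⟩, rfl⟩, ?_⟩, ?_⟩
      · show z + s • p - (z + s • q) = s • (p - q)
        rw [smul_sub]; abel
      · show ε • (s • (p - q)) = (ε * s) • (p - q)
        rw [smul_smul]
    have h1 := h (x - c) ((hmem x).1 hx c hc) (y - c) ((hmem y).1 hy c hc) (by
      intro hmem'
      apply hxy
      have := hLK hmem'
      simpa using this) w (hKL hw)
    convert h1 using 1
    have : c = (1 / 2 : ℝ) • c + (1 / 2 : ℝ) • c := by
      rw [← add_smul]; norm_num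
    nth_rewrite 1 [this]
    simp only [smul_add, smul_sub]
    abel

/-- The Euclidean unit ball. -/
theorem ball_convexity {d : ℕ} (ε : ℝ) (hε : 0 ≤ ε) :
    ConvexityAt (Metric.closedBall (0 : EuclideanSpace ℝ (Fin d)) 1) ε (ε ^ 2 / 4) := by
  intro x hx y hy hxy w hw
  rw [mem_closedBall_zero_iff] at hx hy ⊢
  have hw2 : ‖w‖ ≤ 2 := by
    obtain ⟨p, hp, q, hq, rfl⟩ := hw
    rw [mem_closedBall_zero_iff] at hp hq
    calc ‖p - q‖ ≤ ‖p‖ + ‖q‖ := norm_sub_le _ _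
      _ ≤ 2 := by linarith
  have hfar : 2 * ε < ‖x - y‖ := by
    by_contra hc
    push Not at hc
    apply hxy
    rcases hε.eq_or_lt with h0 | h0
    · rw [← h0] at hc ⊢
      have : x - y = 0 := by
        rw [← norm_le_zero_iff]
        linarith
      rw [this]
      exact ⟨0, ⟨0, by simp, 0, by simp, by simp⟩, by simp⟩
    · refine ⟨ε⁻¹ • (x - y), ⟨(2 * ε)⁻¹ • (x - y), ?_, -((2 * ε)⁻¹ • (x - y)), ?_, ?_⟩, ?_⟩
      · rw [mem_closedBall_zero_iff, norm_smul, norm_inv, Real.norm_of_nonneg (by positivity),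
          inv_mul_le_iff₀ (by positivity), mul_one]
        exact hc
      · rw [mem_closedBall_zero_iff, norm_neg, norm_smul, norm_inv,
          Real.norm_of_nonneg (by positivity), inv_mul_le_iff₀ (by positivity), mul_one]
        exact hc
      · show (2 * ε)⁻¹ • (x - y) - -((2 * ε)⁻¹ • (x - y)) = ε⁻¹ • (x - y)
        rw [sub_neg_eq_add, ← add_smul]
        congr 1
        field_simp
        norm_num
      · show ε • (ε⁻¹ • (x - y)) = x - y
        rw [smul_smul, mul_inv_cancel₀ h0.ne', one_smul]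
  have h3 := parallelogram_law_with_norm ℝ x y
  have hε1 : ε ^ 2 ≤ 1 := by
    have : ‖x - y‖ ≤ 2 := by
      calc ‖x - y‖ ≤ ‖x‖ + ‖y‖ := norm_sub_le _ _
        _ ≤ 2 := by linarith
    nlinarith
  have hm : ‖(1 / 2 : ℝ) • (x + y)‖ ≤ 1 - ε ^ 2 / 2 := by
    rw [norm_smul, Real.norm_of_nonneg (by norm_num)]
    have h4 : (2 * ε) ^ 2 ≤ ‖x - y‖ ^ 2 := by
      gcongr
    have h5 : ‖x‖ ^ 2 ≤ 1 := by nlinarith [norm_nonneg x]
    have h6 : ‖y‖ ^ 2 ≤ 1 := by nlinarith [norm_nonneg y]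
    have h7 : (1 / 2 * ‖x + y‖) ^ 2 ≤ (1 - ε ^ 2 / 2) ^ 2 := by
      nlinarith [sq_nonneg (ε ^ 2)]
    exact (abs_le_of_sq_le_sq' h7 (by linarith)).2
  calc ‖(1 / 2 : ℝ) • (x + y) + (ε ^ 2 / 4) • w‖
      ≤ ‖(1 / 2 : ℝ) • (x + y)‖ + ‖(ε ^ 2 / 4) • w‖ := norm_add_le _ _
    _ = ‖(1 / 2 : ℝ) • (x + y)‖ + ε ^ 2 / 4 * ‖w‖ := by
        rw [norm_smul (ε ^ 2 / 4), Real.norm_of_nonneg (by positivity)]
    _ ≤ (1 - ε ^ 2 / 2) + ε ^ 2 / 4 * 2 := by gcongr
    _ = 1 := by ring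

/-- Intersections of unit balls. -/
theorem balls (d : ℕ) (hd : 2 ≤ d) (C K : Set (EuclideanSpace ℝ (Fin d))) (hC : C.Nonempty)
    (hK : K = ⋂ c ∈ C, Metric.closedBall c 1) (z : EuclideanSpace ℝ (Fin d)) (s : ℝ) (hs : 0 < s)
    (hz : Metric.closedBall z s ⊆ K) :
    CoveredBy K (1 + 12 * d * Real.log (2 * d ^ 2 + 2 * d + 1) * 2 ^ d
        * (6144 / s ^ 2 * (1 - s ^ 6 / 2 ^ 29) ^ d) ^ (1 / 60 : ℝ)) := by
  have hB : IsBody (Metric.closedBall (0 : EuclideanSpace ℝ (Fin d)) 1) :=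
    ⟨convex_closedBall _ _, isCompact_closedBall _ _,
      ⟨0, by rw [mem_interior_iff_mem_nhds]; exact Metric.closedBall_mem_nhds _ one_pos⟩⟩
  have e1 : K = ⋂ c ∈ C, c +ᵥ Metric.closedBall (0 : EuclideanSpace ℝ (Fin d)) 1 := by
    rw [hK]
    refine iInter₂_congr fun c _ => ?_
    rw [Metric.vadd_closedBall]
    simp
  have e2 : z +ᵥ s • Metric.closedBall (0 : EuclideanSpace ℝ (Fin d)) 1 = Metric.closedBall z s := by
    rw [smul_closedBall _ _ zero_le_one, Metric.vadd_closedBall, Real.norm_of_nonneg hs.le]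
    simp
  obtain ⟨h1, h2⟩ := inter_body hB hC e1 hs (z := z) (by rw [e2]; exact hz)
  have hs1 : s ≤ 1 := by
    obtain ⟨c, hc⟩ := hC
    have hsub : Metric.closedBall z s ⊆ Metric.closedBall c 1 := by
      refine hz.trans ?_
      rw [hK]
      exact biInter_subset_of_mem hc
    set u : EuclideanSpace ℝ (Fin d) := EuclideanSpace.single (⟨0, by omega⟩ : Fin d) s with hu
    have hun : ‖u‖ = s := by
      rw [hu, PiLp.norm_single, Real.norm_of_nonneg hs.le]
    have h3 : ‖z + u - c‖ ≤ 1 := by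
      have := hsub (show z + u ∈ Metric.closedBall z s by
        rw [Metric.mem_closedBall, dist_eq_norm]; simp [hun])
      rwa [Metric.mem_closedBall, dist_eq_norm] at this
    have h4 : ‖z - u - c‖ ≤ 1 := by
      have := hsub (show z - u ∈ Metric.closedBall z s by
        rw [Metric.mem_closedBall, dist_eq_norm]; simp [hun])
      rwa [Metric.mem_closedBall, dist_eq_norm] at this
    have h5 : (2:ℝ) • u = (z + u - c) - (z - u - c) := by
      rw [two_smul]; abel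
    have h6 : 2 * ‖u‖ ≤ 2 := by
      calc 2 * ‖u‖ = ‖(2:ℝ) • u‖ := by rw [norm_smul]; norm_num
        _ ≤ ‖z + u - c‖ + ‖z - u - c‖ := by rw [h5]; exact norm_sub_le _ _
        _ ≤ 2 := by linarith
    linarith
  have hs2 : s ^ 2 ≤ 1 := pow_le_one₀ hs.le hs1
  have hs6 : s ^ 6 ≤ 1 := pow_le_one₀ hs.le hs1
  have h3 := general d hd K h1 (s ^ 2 / 256) (s ^ 6 / 2 ^ 28) (by positivity) (by linarith)
    (by positivity) (by
      rw [div_le_one (by positivity)]
      linarith) (h2 _ _ (by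
        have := ball_convexity (d := d) (1 / 8 * s) (by positivity)
        have e : (1 / 8 * s) ^ 2 / 4 = s ^ 2 / 256 := by ring
        rwa [e] at this)) (h2 _ _ (by
        have := ball_convexity (d := d) (s ^ 2 / 256 / 32 * s) (by positivity)
        have e : (s ^ 2 / 256 / 32 * s) ^ 2 / 4 = s ^ 6 / 2 ^ 28 := by ring
        rwa [e] at this))
  have e3 : 24 / (s ^ 2 / 256) = 6144 / s ^ 2 := by
    field_simp
    norm_num
  have e4 : s ^ 6 / 2 ^ 28 / 2 = s ^ 6 / 2 ^ 29 := by ring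
  rwa [e3, e4] at h3

/-- **Main theorem.** -/
theorem result :
    -- 1. the quantitative bound
    (∀ (d : ℕ), 2 ≤ d → ∀ (K : Set (EuclideanSpace ℝ (Fin d))), IsBody K → ∀ δ₁ δ₂ : ℝ,
      0 < δ₁ → δ₁ ≤ 1 → 0 < δ₂ → δ₂ ≤ 1 → ConvexityAt K (1 / 8) δ₁ →
      ConvexityAt K (δ₁ / 32) δ₂ →
      CoveredBy K (1 + 12 * d * Real.log (2 * d ^ 2 + 2 * d + 1) * 2 ^ d
        * (24 / δ₁ * (1 - δ₂ / 2) ^ d) ^ (1 / 60 : ℝ))) ∧
    -- 2. bodies with a given modulus of convexity, in high dimensions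
    (∀ δ : ℝ → ℝ, (∀ ε, 0 < ε → 0 < δ ε) →
      ∃ q : ℝ, q < 2 ∧ ∃ d₀ : ℕ, ∀ d : ℕ, d₀ ≤ d → ∀ K : Set (EuclideanSpace ℝ (Fin d)),
        IsBody K → (∀ ε, 0 < ε → ConvexityAt K ε (δ ε)) → CoveredBy K (q ^ d)) ∧
    -- 3. intersections of translates of such a body, in high dimensions
    (∀ δ : ℝ → ℝ, (∀ ε, 0 < ε → 0 < δ ε) → ∀ s : ℝ, 0 < s →
      ∃ q : ℝ, q < 2 ∧ ∃ d₀ : ℕ, ∀ d : ℕ, d₀ ≤ d →
        ∀ L : Set (EuclideanSpace ℝ (Fin d)), IsBody L → (∀ ε, 0 < ε → ConvexityAt L ε (δ ε)) →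
        ∀ C K : Set (EuclideanSpace ℝ (Fin d)), C.Nonempty → K = ⋂ c ∈ C, c +ᵥ L →
          (∃ z : EuclideanSpace ℝ (Fin d), z +ᵥ s • L ⊆ K) → CoveredBy K (q ^ d)) ∧
    -- 4. intersections of Euclidean unit balls
    (∀ (d : ℕ), 2 ≤ d → ∀ (C K : Set (EuclideanSpace ℝ (Fin d))), C.Nonempty →
      K = ⋂ c ∈ C, Metric.closedBall c 1 → ∀ (z : EuclideanSpace ℝ (Fin d)) (s : ℝ), 0 < s →
      Metric.closedBall z s ⊆ K →
      CoveredBy K (1 + 12 * d * Real.log (2 * d ^ 2 + 2 * d + 1) * 2 ^ d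
        * (6144 / s ^ 2 * (1 - s ^ 6 / 2 ^ 29) ^ d) ^ (1 / 60 : ℝ))) := by
  refine ⟨fun d hd K hK δ₁ δ₂ h1 h1' h2 h2' hc1 hc2 => general d hd K hK δ₁ δ₂ h1 h1' h2 h2' hc1 hc2,
    modulus, fun δ hδ s hs => ?_,
    fun d hd C K hC hK z s hs hz => balls d hd C K hC hK z s hs hz⟩
  obtain ⟨q, hq, d₀, h⟩ := modulus (fun ε => δ (ε * s)) (fun ε hε => hδ _ (by positivity))
  refine ⟨q, hq, d₀, fun d hd L hL hLc C K hC hK hz => ?_⟩
  obtain ⟨z, hz⟩ := hz
  obtain ⟨h1, h2⟩ := inter_body hL hC hK hs hz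
  exact h d hd K h1 fun ε hε => h2 ε _ (hLc _ (by positivity))

end Pool.Agent.Results.MP_eba1ef_gt.UniformlyConvexBodies
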